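import Pool.Agent.GenTuran.Main

/-!
# MP_2c76b2_co: counting `P_3` and counting edges need not have a common extremal graph

For `H = P_3` and every `r` there is a graph `F` with chromatic number larger than `r` such that
for infinitely many `n` no `n`-vertex `F`-free graph simultaneously maximises the number of copies
of `P_3` and the number of edges.  (`F` is the complement of an even cycle.)
-/

open SimpleGraph Finset Pool.Agent.GenTuran

namespace Pool.Agent.Results.MP_2c76b2_co.NoCommonExtremal

/-- `Ex n H F`: the set of `F`-free graphs on `n` vertices having the maximum number of copies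
of `H` (i.e. of subgraphs isomorphic to `H`) among all `F`-free graphs on `n` vertices. -/
def Ex (n : ℕ) {a b : ℕ} (H : SimpleGraph (Fin a)) (F : SimpleGraph (Fin b)) :
    Set (SimpleGraph (Fin n)) :=
  {G | F.Free G ∧ ∀ G' : SimpleGraph (Fin n), F.Free G' → G'.copyCount H ≤ G.copyCount H}

/-- The negation of the conjecture, with `H = P_3` the path on three vertices. -/
theorem result : ∀ r : ℕ, ∃ (b : ℕ) (F : SimpleGraph (Fin b)),
    (r : ℕ∞) < F.chromaticNumber ∧
    ∀ n₀ : ℕ, ∃ n : ℕ, n₀ ≤ n ∧
      Ex n (pathGraph 3) F ∩ Ex n (⊤ : SimpleGraph (Fin 2)) F = ∅ := by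
  classical
  intro r
  refine ⟨2 * (r + 2) + 2, Fgraph (r + 2), ?_, ?_⟩
  · refine lt_trans ?_ (lt_chromaticNumber (r + 2))
    exact_mod_cast (by omega : r < r + 2)
  · intro n₀
    obtain ⟨t0, ht0⟩ := main_cherries (r + 2) (by omega)
    set t := max t0 n₀ with ht
    have h1 : t0 ≤ t := le_max_left _ _
    have h2 : n₀ ≤ t := le_max_right _ _
    refine ⟨(r + 2) * (3 * t + 2) + 1, ?_, ?_⟩
    · have : t ≤ (r + 2) * (3 * t + 2) := by nlinarith
      omega
    · rw [Set.eq_empty_iff_forall_notMem]
      rintro G ⟨⟨hF, hmax⟩, ⟨-, hmax2⟩⟩
      -- `G` has the extremal number of edges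
      have he : G.edgeFinset.card = ax (r + 2) t := by
        apply le_antisymm
        · exact free_edges_le (Fintype.card_fin _) hF
        · obtain ⟨G0, hF0, hG0⟩ := exists_extremal (r + 2) t (by omega)
          have := hmax2 G0 hF0
          rw [copyCount_edge, copyCount_edge] at this
          calc ax (r + 2) t = _ := hG0.symm
            _ = _ := edgeCard_inst G0 _ _
            _ ≤ _ := this
            _ = _ := edgeCard_inst G _ _
      have hlt := ht0 t h1 G hF he
      -- compare with the graph having a dominating vertex
      have hcard : Fintype.card (Option (Fin (r + 2) × Fin (3 * t + 2))) =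
          (r + 2) * (3 * t + 2) + 1 := by
        rw [Fintype.card_option, Fintype.card_prod, Fintype.card_fin, Fintype.card_fin]
      let S := starG (r + 2) (3 * t + 2)
      let e : S ≃g S.overFin hcard := S.overFinIso hcard
      have hfree : (Fgraph (r + 2)).Free (S.overFin hcard) := by
        intro h
        exact starG_free (r + 2) (3 * t + 2) (h.trans ⟨e.symm.toCopy⟩)
      have h3 := hmax _ hfree
      rw [copyCount_p3, copyCount_p3, ← cherries_iso e] at h3
      exact absurd (lt_of_lt_of_le hlt ((starG_cherries (r + 2) (3 * t + 2)).trans h3))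
        (lt_irrefl _)

end Pool.Agent.Results.MP_2c76b2_co.NoCommonExtremal
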